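import Pool.Agent.Q248.L72.Stm

/-!
# Job COEF (project L72 of helper248; written by helper98)
-/

set_option autoImplicit false

open Complex Filter Topology

namespace Pool.Agent.Q248.L72

/-- coefficients of a vanishing generalized power series -/
theorem coef_zero {ι : Type*} (φ : ι → ℕ) (c : ι → ℂ) (r₀ : ℝ) (h0 : 0 < r₀)
    (hs : Summable fun x => ‖c x‖ * r₀ ^ φ x)
    (hz : ∀ r : ℝ, 0 < r → r ≤ r₀ → ∑' x, c x * ((r : ℂ)) ^ φ x = 0) (n : ℕ) :
    ∑' x, (if φ x = n then c x else 0) = 0 := by
  classical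
  induction n using Nat.strong_induction_on with
  | _ n ih =>
  -- the tail vanishes
  have hsr : ∀ r : ℝ, 0 < r → r ≤ r₀ → Summable fun x => ‖c x‖ * r ^ φ x := by
    intro r hr hr'
    refine Summable.of_nonneg_of_le (fun x => by positivity) (fun x => ?_) hs
    exact mul_le_mul_of_nonneg_left (pow_le_pow_left₀ hr.le hr' _) (norm_nonneg _)
  have htail : ∀ r : ℝ, 0 < r → r ≤ r₀ →
      ∑' x, (if n ≤ φ x then c x * (r : ℂ) ^ (φ x - n) else 0) = 0 := by
    intro r hr hr'
    have hrc : (r : ℂ) ≠ 0 := by exact_mod_cast hr.ne'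
    have hsum : Summable fun x => c x * (r : ℂ) ^ φ x := by
      refine Summable.of_norm ?_
      refine (hsr r hr hr').congr fun x => ?_
      rw [norm_mul, norm_pow, Complex.norm_real, Real.norm_of_nonneg hr.le]
    have hsk : ∀ (P : ι → Prop) [DecidablePred P], Summable fun x => if P x then c x * (r : ℂ) ^ φ x else 0 := by
      intro P _
      refine Summable.of_norm ?_
      refine Summable.of_nonneg_of_le (fun x => norm_nonneg _) (fun x => ?_) hsum.norm
      split_ifs
      · exact le_rfl
      · rw [norm_zero]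
        exact norm_nonneg _
    have e1 : ∀ x, c x * (r : ℂ) ^ φ x =
        (∑ k ∈ Finset.range n, if φ x = k then c x * (r : ℂ) ^ φ x else 0) +
          (if n ≤ φ x then c x * (r : ℂ) ^ φ x else 0) := by
      intro x
      rw [Finset.sum_ite_eq]
      by_cases h : n ≤ φ x
      · rw [if_pos h, if_neg (by rw [Finset.mem_range]; omega), zero_add]
      · rw [if_neg h, if_pos (by rw [Finset.mem_range]; omega), add_zero]
    have e2 := hz r hr hr'
    rw [tsum_congr e1, Summable.tsum_add (summable_sum fun k _ => hsk _) (hsk _),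
      Summable.tsum_finsetSum fun k _ => hsk _] at e2
    have e3 : ∀ k ∈ Finset.range n, ∑' x, (if φ x = k then c x * (r : ℂ) ^ φ x else 0) = 0 := by
      intro k hk
      have e4 : ∀ x, (if φ x = k then c x * (r : ℂ) ^ φ x else 0) =
          (if φ x = k then c x else 0) * (r : ℂ) ^ k := by
        intro x
        split_ifs with h
        · rw [h]
        · rw [zero_mul]
      rw [tsum_congr e4, tsum_mul_right, ih k (Finset.mem_range.1 hk), zero_mul]
    rw [Finset.sum_eq_zero e3, zero_add] at e2
    have e5 : ∀ x, (if n ≤ φ x then c x * (r : ℂ) ^ φ x else 0) =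
        (if n ≤ φ x then c x * (r : ℂ) ^ (φ x - n) else 0) * (r : ℂ) ^ n := by
      intro x
      split_ifs with h
      · rw [mul_assoc, ← pow_add, Nat.sub_add_cancel h]
      · rw [zero_mul]
    rw [tsum_congr e5, tsum_mul_right] at e2
    exact (mul_eq_zero.1 e2).resolve_right (pow_ne_zero _ hrc)
  -- the limit `r → 0`
  have hlim : Tendsto (fun r : ℝ => ∑' x, (if n ≤ φ x then c x * (r : ℂ) ^ (φ x - n) else 0))
      (𝓝[>] 0) (𝓝 (∑' x, (if φ x = n then c x else 0))) := by
    refine tendsto_tsum_of_dominated_convergence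
      (bound := fun x => ‖c x‖ * r₀ ^ φ x * (r₀ ^ n)⁻¹) (hs.mul_right _) ?_ ?_
    · intro x
      rcases lt_trichotomy (φ x) n with h | h | h
      · rw [if_neg h.ne]
        simp only [if_neg (not_le.2 h)]
        exact tendsto_const_nhds
      · rw [if_pos h]
        simp only [h, le_refl, if_true, Nat.sub_self, pow_zero, mul_one]
        exact tendsto_const_nhds
      · rw [if_neg h.ne']
        simp only [if_pos h.le]
        have h2 : Tendsto (fun r : ℝ => c x * (r : ℂ) ^ (φ x - n)) (𝓝 0) (𝓝 (c x * ((0 : ℝ) : ℂ) ^ (φ x - n))) := by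
          refine Continuous.tendsto ?_ 0
          fun_prop
        rw [Complex.ofReal_zero, zero_pow (by omega), mul_zero] at h2
        exact h2.mono_left nhdsWithin_le_nhds
    · have h3 : ∀ᶠ r : ℝ in 𝓝[>] 0, r ∈ Set.Ioo 0 r₀ := Ioo_mem_nhdsGT h0
      filter_upwards [h3] with r hr x
      split_ifs with h
      · rw [norm_mul, norm_pow, Complex.norm_real, Real.norm_of_nonneg hr.1.le, mul_assoc]
        refine mul_le_mul_of_nonneg_left ?_ (norm_nonneg _)
        rw [← div_eq_mul_inv, le_div_iff₀ (by positivity)]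
        calc r ^ (φ x - n) * r₀ ^ n ≤ r₀ ^ (φ x - n) * r₀ ^ n :=
              mul_le_mul_of_nonneg_right (pow_le_pow_left₀ hr.1.le hr.2.le _) (by positivity)
          _ = r₀ ^ φ x := by rw [← pow_add, Nat.sub_add_cancel h]
      · rw [norm_zero]
        positivity
  have hconst : Tendsto (fun r : ℝ => ∑' x, (if n ≤ φ x then c x * (r : ℂ) ^ (φ x - n) else 0))
      (𝓝[>] 0) (𝓝 0) := by
    refine tendsto_const_nhds.congr' ?_
    have h3 : ∀ᶠ r : ℝ in 𝓝[>] 0, r ∈ Set.Ioo 0 r₀ := Ioo_mem_nhdsGT h0
    filter_upwards [h3] with r hr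
    exact (htail r hr.1 hr.2.le).symm
  exact tendsto_nhds_unique hlim hconst

theorem t_COEF (h : S_SUM) : S_COEF := by
  classical
  intro L hL c hc hz m hf
  obtain ⟨C, hC⟩ := hc
  -- the half norms
  have hev : ∀ x : L, ∃ n : ℕ, inner ℝ (x : V) (x : V) = 2 * (n : ℝ) := by
    intro x
    obtain ⟨k, hk⟩ := hL.even x x.2
    have h0 : (0 : ℝ) ≤ inner ℝ (x : V) (x : V) := real_inner_self_nonneg
    have hk0 : 0 ≤ k := by
      rw [hk] at h0
      have : (0 : ℝ) ≤ k := by linarith
      exact_mod_cast this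
    refine ⟨k.toNat, ?_⟩
    rw [hk]
    have : ((k.toNat : ℤ) : ℝ) = (k : ℝ) := by rw [Int.toNat_of_nonneg hk0]
    rw [← this, Int.cast_natCast]
  choose φ hφ using hev
  have hexp : ∀ (y : ℝ) (x : L), cexp (Real.pi * I * (I * y) * ((inner ℝ (x : V) (x : V) : ℝ) : ℂ)) =
      ((Real.exp (-(2 * Real.pi * y)) : ℝ) : ℂ) ^ φ x := by
    intro y x
    rw [hφ, Complex.ofReal_exp, ← Complex.exp_nat_mul]
    congr 1
    push_cast
    have : (I : ℂ) * I = -1 := I_mul_I
    linear_combination ((Real.pi : ℂ) * y * (2 * (φ x : ℂ))) * this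
  have hr0 : (0 : ℝ) < Real.exp (-(2 * Real.pi * 1)) := Real.exp_pos _
  have hr1 : Real.exp (-(2 * Real.pi * 1)) < 1 := by
    rw [Real.exp_lt_one_iff]
    have := Real.pi_pos
    linarith
  have key := coef_zero φ (fun x : L => c x) (Real.exp (-(2 * Real.pi * 1))) hr0 ?_ ?_
  rotate_left
  · have hs := (h L hL Real.pi 1 Real.pi_pos).mul_left C
    refine Summable.of_nonneg_of_le (fun x => by positivity) (fun x => ?_) hs
    have e1 : Real.exp (-(2 * Real.pi * 1)) ^ φ x = Real.exp (-(Real.pi * ‖(x : V)‖ ^ 2)) := by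
      rw [← Real.exp_nat_mul, ← real_inner_self_eq_norm_sq, hφ]
      congr 1
      ring
    rw [e1]
    have e2 : Real.exp (1 * ‖(x : V)‖ - Real.pi * ‖(x : V)‖ ^ 2) =
        Real.exp ‖(x : V)‖ * Real.exp (-(Real.pi * ‖(x : V)‖ ^ 2)) := by
      rw [← Real.exp_add]
      congr 1
      ring
    rw [e2, ← mul_assoc]
    exact mul_le_mul_of_nonneg_right (hC x) (Real.exp_pos _).le
  · intro r hr hr'
    set y : ℝ := -Real.log r / (2 * Real.pi) with hy
    have hpi := Real.pi_pos
    have hre : Real.exp (-(2 * Real.pi * y)) = r := by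
      have : -(2 * Real.pi * y) = Real.log r := by
        rw [hy]
        field_simp
      rw [this, Real.exp_log hr]
    have hy0 : 0 < y := by
      rw [hy]
      have : Real.log r < 0 := Real.log_neg hr (lt_of_le_of_lt hr' hr1)
      exact div_pos (by linarith) (by linarith)
    have e := hz (I * y) (by simpa using hy0)
    have e2 : ∀ x : L, c x * cexp (Real.pi * I * (I * y) * ((inner ℝ (x : V) (x : V) : ℝ) : ℂ)) =
        c x * (r : ℂ) ^ φ x := by
      intro x
      rw [hexp, hre]
    rw [tsum_congr e2] at e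
    exact e
  -- the shell
  have hsum : ∑ x ∈ hf.toFinset, c x = ∑' x : L, (if inner ℝ (x : V) (x : V) = m then c x else 0) := by
    have e1 : ∑' x : L, (if inner ℝ (x : V) (x : V) = m then c x else 0) =
        ∑' x : V, (L : Set V).indicator (fun x : V => if inner ℝ x x = m then c x else 0) x :=
      tsum_subtype (L : Set V) (fun x : V => if inner ℝ x x = m then c x else 0)
    rw [e1, tsum_eq_sum (s := hf.toFinset)]
    · refine Finset.sum_congr rfl fun x hx => ?_
      rw [Set.Finite.mem_toFinset] at hx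
      rw [Set.indicator_of_mem hx.1, if_pos hx.2]
    · intro x hx
      rw [Set.Finite.mem_toFinset] at hx
      by_cases hxL : x ∈ (L : Set V)
      · rw [Set.indicator_of_mem hxL, if_neg]
        exact fun h' => hx ⟨hxL, h'⟩
      · rw [Set.indicator_of_notMem hxL]
  rw [hsum]
  by_cases hm : ∃ n : ℕ, m = 2 * (n : ℝ)
  · obtain ⟨n, rfl⟩ := hm
    refine Eq.trans (tsum_congr fun x => ?_) (key n)
    have : inner ℝ (x : V) (x : V) = 2 * (n : ℝ) ↔ φ x = n := by
      rw [hφ]
      constructor
      · intro h'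
        have : (φ x : ℝ) = n := by linarith
        exact_mod_cast this
      · intro h'
        rw [h']
    simp only [this]
  · have : ∀ x : L, (if inner ℝ (x : V) (x : V) = m then c x else 0) = 0 := by
      intro x
      rw [if_neg]
      intro h'
      exact hm ⟨φ x, by rw [← h', hφ]⟩
    rw [tsum_congr this, tsum_zero]

end Pool.Agent.Q248.L72
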